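import Mathlib
import Pool.Agent.Work.MP_fad7c9_gt.Bridge

/-!
# The isometry group of the trivializable sub-Riemannian 7-sphere has dimension 9

Full answer to Q1 of MP_fad7c9_gt. The group of all sub-Riemannian isometries, with the
compact-open topology (its topology as a Lie group), is locally homeomorphic to Euclidean
9-space. The proof shows that every isometry is the restriction of an orthogonal linear map
normalising the span of the four matrices, and that in quaternionic coordinates these maps are
`(x, y) ↦ (a x s, b y s)` and `(x, y) ↦ (b y s, -a x s)` with unit quaternions `a, b, s`,
the triple being unique up to a common sign.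
-/

set_option autoImplicit false

namespace Pool.Agent.Results.MP_fad7c9_gt.IsometryGroupDimNine

open Pool.Agent.Work.MP_fad7c9_gt.Stmt

theorem result (A : Fin 4 → M8) (hA : CliffordQuadruple A) :
    Nonempty (ChartedSpace (EuclideanSpace ℝ (Fin 9)) (isometryGroup A)) :=
  Pool.Agent.Work.MP_fad7c9_gt.bridge A hA

end Pool.Agent.Results.MP_fad7c9_gt.IsometryGroupDimNine
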